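import Pool.Agent.Lib.MP_6c4343_ag.Main

/-!
# Continuous piecewise polynomial functions which are not inf-sup definable

For every `n ≥ 45` there are a quartic form `P` in `n` variables and a continuous function `f` on
real `n`-space with `f a ∈ {0, P a}` for every point `a`, such that `f` is not a max of finitely many
mins of finitely many polynomials.  So the two classes of the question differ in every dimension
`n ≥ 45`.
-/

set_option autoImplicit false

namespace Pool.Agent.Results.MP_6c4343_ag.EveryDimension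

open Pool.Agent.PB61 (Ix F0 fP)

/-- The continuous piecewise polynomial functions on real `n`-space. -/
def PWP (n : ℕ) : Set ((Fin n → ℝ) → ℝ) :=
  {f | Continuous f ∧ ∃ s : Finset (MvPolynomial (Fin n) ℝ),
    ∀ a, ∃ p ∈ s, f a = MvPolynomial.eval a p}

/-- The inf-sup definable functions: a max over `i` of mins over `j` of polynomials `q i j`.  The
number of the `j` may depend on `i`. -/
def ISD (n : ℕ) : Set ((Fin n → ℝ) → ℝ) :=
  {f | ∃ (m : ℕ) (k : Fin (m + 1) → ℕ) (q : (i : Fin (m + 1)) → Fin (k i + 1) →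
      MvPolynomial (Fin n) ℝ), ∀ a, f a = Finset.univ.sup' Finset.univ_nonempty fun i =>
        Finset.univ.inf' Finset.univ_nonempty fun j => MvPolynomial.eval a (q i j)}

private theorem hom_S (i j : Fin 5) :
    (Pool.Agent.PB61.S (MvPolynomial.X : Ix → MvPolynomial Ix ℝ) i j).IsHomogeneous 2 := by
  unfold Pool.Agent.PB61.S
  have hX : ∀ u v : Ix, (MvPolynomial.X u * MvPolynomial.X v : MvPolynomial Ix ℝ).IsHomogeneous 2 :=
    fun u v => (MvPolynomial.isHomogeneous_X ℝ u).mul (MvPolynomial.isHomogeneous_X ℝ v)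
  refine (MvPolynomial.IsHomogeneous.sum _ _ _ fun k _ => (hX _ _).add (hX _ _)).add ?_
  have h2 : (2 : MvPolynomial Ix ℝ) = MvPolynomial.C 2 := (map_ofNat _ _).symm
  rw [h2]
  exact (hX _ _).C_mul 2

private theorem hom_fP : fP.IsHomogeneous 4 := by
  unfold fP Pool.Agent.PB61.f
  refine ((MvPolynomial.IsHomogeneous.sum _ _ _ fun i _ => hom_S i i).pow 2).sub ?_
  have h4 : (4 : MvPolynomial Ix ℝ) = MvPolynomial.C 4 := (map_ofNat _ _).symm
  rw [h4]
  exact (MvPolynomial.IsHomogeneous.sum _ _ _ fun i _ =>
    MvPolynomial.IsHomogeneous.sum _ _ _ fun j _ => (hom_S i j).pow 2).C_mul 4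

private theorem card_Ix : Fintype.card Ix = 45 := by decide

theorem result (n : ℕ) (hn : 45 ≤ n) :
    ∃ P : MvPolynomial (Fin n) ℝ, P.IsHomogeneous 4 ∧ ∃ f ∈ PWP n,
      (∀ a, f a = 0 ∨ f a = MvPolynomial.eval a P) ∧ f ∉ ISD n := by
  classical
  obtain ⟨e⟩ : Nonempty (Ix ↪ Fin n) := by
    rw [Function.Embedding.nonempty_iff_card_le, card_Ix, Fintype.card_fin]
    exact hn
  have hcont : Continuous (fun a : Fin n → ℝ => F0 (a ∘ e)) :=
    Pool.Agent.PB61.continuous_F0.comp (continuous_pi fun i => continuous_apply _)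
  have hval : ∀ a : Fin n → ℝ, F0 (a ∘ e) = 0 ∨
      F0 (a ∘ e) = MvPolynomial.eval a (MvPolynomial.rename e fP) := by
    intro a
    rcases Pool.Agent.PB61.F0_piecewise (a ∘ e) with h | h
    · right
      rw [h, MvPolynomial.eval_rename]
    · exact Or.inl h
  refine ⟨MvPolynomial.rename e fP, hom_fP.rename_isHomogeneous, fun a => F0 (a ∘ e),
    ⟨hcont, {MvPolynomial.rename e fP, 0}, fun a => ?_⟩, hval, ?_⟩
  · rcases hval a with h | h
    · exact ⟨0, by simp, by rw [map_zero]; exact h⟩
    · exact ⟨_, by simp, h⟩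
  · rintro ⟨m, k, q, hq⟩
    -- restrict to the subspace of the 45 coordinates
    set g : Fin n → MvPolynomial Ix ℝ := fun l =>
      if h : ∃ i, e i = l then MvPolynomial.X h.choose else 0 with hg
    have hge : ∀ (x : Ix → ℝ) (i : Ix), MvPolynomial.eval x (g (e i)) = x i := by
      intro x i
      have h : ∃ i', e i' = e i := ⟨i, rfl⟩
      have h1 : g (e i) = MvPolynomial.X h.choose := by
        rw [hg]
        exact dif_pos h
      rw [h1, MvPolynomial.eval_X, e.injective h.choose_spec]
    have hsub : ∀ (x : Ix → ℝ) (p : MvPolynomial (Fin n) ℝ),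
        MvPolynomial.eval x (MvPolynomial.bind₁ g p) =
          MvPolynomial.eval (fun l => MvPolynomial.eval x (g l)) p := by
      intro x p
      exact MvPolynomial.eval₂Hom_bind₁ (RingHom.id ℝ) x g p
    -- make the families of equal size
    set K : ℕ := Finset.univ.sup k with hK
    have hkK : ∀ i, k i ≤ K := fun i => Finset.le_sup (Finset.mem_univ i)
    refine Pool.Agent.PB61.not_isd (m + 1) (K + 1) (Nat.succ_pos _) (Nat.succ_pos _)
      (fun i j => MvPolynomial.bind₁ g (q i ⟨min j.1 (k i), by omega⟩)) fun x => ?_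
    have h1 := hq (fun l => MvPolynomial.eval x (g l))
    beta_reduce at h1
    have h2 : (fun l => MvPolynomial.eval x (g l)) ∘ e = x := by
      funext i
      exact hge x i
    rw [h2, Finset.sup'_univ_eq_ciSup] at h1
    rw [h1]
    congr 1
    funext i
    rw [Finset.inf'_univ_eq_ciInf]
    simp only [hsub]
    have hsurj : Function.Surjective (fun j : Fin (K + 1) =>
        (⟨min j.1 (k i), by omega⟩ : Fin (k i + 1))) := by
      intro j
      refine ⟨⟨j.1, by have := hkK i; omega⟩, ?_⟩
      ext
      simp only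
      omega
    exact (hsurj.iInf_comp
      (g := fun j => MvPolynomial.eval (fun l => MvPolynomial.eval x (g l)) (q i j))).symm

end Pool.Agent.Results.MP_6c4343_ag.EveryDimension
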